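import Pool.Agent.Lib.MP_7f581e_K.DefsO
import Pool.Agent.Lib.MP_7f581e_Z.Bot.Main
import Pool.Agent.Lib.MP_7f581e_Z.Top.Rgl
import Pool.Agent.Lib.MP_7f581e_Z.Top.Emb

/-!
# C33, Part IV: the closure theorem from the weak solution
-/

set_option autoImplicit false

universe u

namespace MP7K

open MP7Z MP7fR MP7fC MP7fE

theorem occReg_congr {G H : Type} [Group G] [Group H] {k : Type u} [Field k] (e : G ≃* H)
    (h : OccursRegularly G k) : OccursRegularly H k := by
  obtain ⟨L, i1, i2, h1, h2, ⟨e'⟩, h3⟩ := h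
  exact ⟨L, i1, i2, h1, h2, ⟨e'.trans e⟩, h3⟩

/-- A simple group of the class has composition factors in the class. -/
theorem hasFactors_of_mem {𝒮 : GroupClass}
    (hiso : ∀ (S T : Type) [Group S] [Group T], (S ≃* T) → 𝒮 S → 𝒮 T) {S : Type} [Group S]
    (h : 𝒮 S) : HasFactors 𝒮 S :=
  .ext S ⊥ (.triv _) (hiso _ _ QuotientGroup.quotientBot.symm h)

/-- A regular realization over `𝔽_p(X)` gives a realization in the homomorphism language. -/
theorem exists_rz {p : ℕ} [Fact p.Prime] {G : Type} [Group G]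
    (h : OccursRegularly G (ZMod p)) : ∃ ψ : Gx p (xx p) →* G, Rz p (xx p) ψ := by
  obtain ⟨L, _, _, hfd, hgal, ⟨e⟩, hcl⟩ := h
  obtain ⟨ι, ψ, hι, -, hfin, hsurj, hψ⟩ := Top.tEmb p (Om p) (xx p) (isStage_xx p) L
  have hreg := Top.tRgl p (Om p) (xx p) (isStage_xx p) L ι ψ hι hfin hsurj hψ hcl
  refine ⟨e.toMonoidHom.comp ψ, isStage_xx p, ?_, fun g => ?_⟩
  · obtain ⟨S, hS⟩ := hfin
    exact ⟨S, fun γ hγ => by
      rw [MonoidHom.comp_apply, hS γ hγ, map_one]⟩
  · obtain ⟨γ, h1, h2⟩ := hreg (e.symm g)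
    refine ⟨γ, h1, ?_⟩
    rw [MonoidHom.comp_apply, h2]
    exact e.apply_symm_apply g

/-- A surjective homomorphism of finite level gives a realization over `𝔽_p(X)`. -/
theorem occurs_of_surj {p : ℕ} [Fact p.Prime] {Ω : Type} [Field Ω] [Algebra (ZMod p) Ω] {x : Ω}
    (hst : IsStage p x) {G : Type} [Group G] (ψ : Gx p x →* G) (hfin : FinLevel ψ)
    (hψs : Function.Surjective ψ) : Occurs G (RatFunc (ZMod p)) := by
  have := hst.sepClosed
  let _ : Algebra (RatFunc (ZMod p)) Ω := (emb hst.transc).toAlgebra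
  have hgal : IsGalois (RatFunc (ZMod p)) Ω := isGalois_emb hst
  have hX : algebraMap (RatFunc (ZMod p)) Ω RatFunc.X = x := emb_X hst.transc
  have hC : ∀ c : ZMod p, algebraMap (RatFunc (ZMod p)) Ω
      (algebraMap (ZMod p) (RatFunc (ZMod p)) c) = algebraMap (ZMod p) Ω c :=
    fun c => emb_C hst.transc c
  let toA : (Ω ≃ₐ[RatFunc (ZMod p)] Ω) → (Ω ≃ₐ[ZMod p] Ω) := fun γ =>
    AlgEquiv.ofRingEquiv (f := γ.toRingEquiv) (by
      intro c
      rw [← hC]
      exact γ.commutes _)
  let toG : (Ω ≃ₐ[RatFunc (ZMod p)] Ω) →* Gx p x :=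
    { toFun := fun γ => ⟨toA γ, by
        rw [mem_Gx, ← hX]
        exact γ.commutes _⟩
      map_one' := Subtype.ext (AlgEquiv.ext fun _ => rfl)
      map_mul' := fun a b => Subtype.ext (AlgEquiv.ext fun _ => rfl) }
  have hsurj : Function.Surjective toG := by
    intro γ
    let f : Ω ≃+* Ω := (γ : Ω ≃ₐ[ZMod p] Ω).toRingEquiv
    have hf : ∀ r : RatFunc (ZMod p), f (algebraMap (RatFunc (ZMod p)) Ω r) =
        algebraMap (RatFunc (ZMod p)) Ω r := by
      intro r
      have h1 : (f : Ω →+* Ω).comp (algebraMap (RatFunc (ZMod p)) Ω) =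
          algebraMap (RatFunc (ZMod p)) Ω := by
        apply IsFractionRing.ringHom_ext (A := Polynomial (ZMod p))
        intro P
        have h2 : ((f : Ω →+* Ω).comp (algebraMap (RatFunc (ZMod p)) Ω)).comp
            (algebraMap (Polynomial (ZMod p)) (RatFunc (ZMod p))) =
            (algebraMap (RatFunc (ZMod p)) Ω).comp
              (algebraMap (Polynomial (ZMod p)) (RatFunc (ZMod p))) := by
          apply Polynomial.ringHom_ext
          · intro c
            have h3 : algebraMap (Polynomial (ZMod p)) (RatFunc (ZMod p)) (Polynomial.C c) =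
                algebraMap (ZMod p) (RatFunc (ZMod p)) c := rfl
            change (γ : Ω ≃ₐ[ZMod p] Ω) (algebraMap (RatFunc (ZMod p)) Ω
              (algebraMap (Polynomial (ZMod p)) (RatFunc (ZMod p)) (Polynomial.C c))) =
              algebraMap (RatFunc (ZMod p)) Ω
                (algebraMap (Polynomial (ZMod p)) (RatFunc (ZMod p)) (Polynomial.C c))
            rw [h3, hC]
            exact (γ : Ω ≃ₐ[ZMod p] Ω).commutes c
          · change (γ : Ω ≃ₐ[ZMod p] Ω) (algebraMap (RatFunc (ZMod p)) Ω
              (algebraMap (Polynomial (ZMod p)) (RatFunc (ZMod p)) Polynomial.X)) =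
              algebraMap (RatFunc (ZMod p)) Ω
                (algebraMap (Polynomial (ZMod p)) (RatFunc (ZMod p)) Polynomial.X)
            rw [RatFunc.algebraMap_X, hX]
            exact mem_Gx.1 γ.2
        exact congrArg (fun g : Polynomial (ZMod p) →+* Ω => g P) h2
      exact congrArg (fun g : RatFunc (ZMod p) →+* Ω => g r) h1
    refine ⟨AlgEquiv.ofRingEquiv (f := f) hf, ?_⟩
    exact Subtype.ext (AlgEquiv.ext fun _ => rfl)
  obtain ⟨S, hS⟩ := hfin
  obtain ⟨L, hfd, hLg, hiso, -⟩ := reg_gal (ψ.comp toG) (hψs.comp hsurj) S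
    (fun γ hγ => hS (toG γ) hγ)
  -- transport to the universe of `RatFunc`
  exact ⟨L, inferInstance, inferInstance, hfd, hLg, hiso⟩

/-- **(IV.1)** Closure under extensions with abelian kernel of exponent `ℓ ≠ p`. -/
theorem closure_ab (hS : StartW) (hW : WeakW) {p : ℕ} [Fact p.Prime] {E G : Type} [Group E]
    [Finite E] [Group G] [Finite G] (f : E →* G) (hf : Function.Surjective f) (ℓ : ℕ)
    (hℓ : ℓ.Prime) (hℓp : ℓ ≠ p) (hfℓ : ∀ a ∈ f.ker, a ^ ℓ = 1)
    (hfc : ∀ a ∈ f.ker, ∀ b ∈ f.ker, a * b = b * a) (h : OccursRegularly G (ZMod p)) :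
    OccursRegularly E (ZMod p) := by
  have hH : IsHilbertian (RatFunc (ZMod p)) := MP7fR.isHilbertian_ratFunc (ZMod p)
  set n := (Nat.card (Abelianization E)).primeFactors.card + 1
  obtain ⟨ψ, hψ⟩ := exists_rz (occursRegularly_pow h n)
  obtain ⟨y, hle, hRD⟩ := hS p (Om p) (xx p) (Fin n → G) ψ hψ
  have hfs : Function.Surjective (powHom n f) := powHom_surjective n f hf
  obtain ⟨y', hle', hRD', ψ', hfin, hψ'⟩ := hW p (Om p) y (Fin n → G) (rs hle ψ) hRD (Fin n → E)
    (powHom n f) hfs ℓ hℓ hℓp (by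
      intro a ha
      funext i
      exact hfℓ (a i) (congrFun (MonoidHom.mem_ker.1 ha) i)) (by
      intro a ha b hb
      funext i
      exact hfc (a i) (congrFun (MonoidHom.mem_ker.1 ha) i) (b i)
        (congrFun (MonoidHom.mem_ker.1 hb) i))
  have hocc : Occurs ψ'.range (RatFunc (ZMod p)) := by
    refine occurs_of_surj hRD'.stage ψ'.rangeRestrict ?_ ψ'.rangeRestrict_surjective
    obtain ⟨S, hS⟩ := hfin
    exact ⟨S, fun γ hγ => Subtype.ext (hS γ hγ)⟩
  have hsup : (powHom n f).ker ⊔ ψ'.range = ⊤ := by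
    rw [eq_top_iff]
    intro e _
    obtain ⟨γ, -, hγ⟩ := hRD'.reg (powHom n f e)
    have h1 : powHom n f (ψ' γ) = powHom n f e := by
      rw [← hγ]
      exact hψ' γ γ.2 (hle' γ.2)
    have h2 : e = e * (ψ' γ)⁻¹ * ψ' γ := by group
    rw [h2]
    refine Subgroup.mul_mem_sup ?_ ⟨γ, rfl⟩
    rw [MonoidHom.mem_ker, map_mul, map_inv, h1, mul_inv_cancel]
  have hE : Occurs (Fin n → E) (RatFunc (ZMod p)) :=
    occurs_of_abelian_supplement p (fun r {E G} _ _ _ f h => solves_of_mv hH f _ h)
      (fun {E} _ _ N _ hN => solves_of_pKernel (p := p) hH N hN) (powHom n f).ker ψ'.range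
      (by
        intro a ha b hb
        funext i
        exact hfc (a i) (congrFun (MonoidHom.mem_ker.1 ha) i) (b i)
          (congrFun (MonoidHom.mem_ker.1 hb) i)) hsup hocc
  exact (per_group (Nat.lt_succ_self _) (k := ZMod p) hE).1 (ZMod p)

/-- The composition factors of the closure theorem: cyclic of prime order, or at the bottom. -/
def IsCloseFactor (p : ℕ) [Fact p.Prime] (S : Type) [Group S] : Prop :=
  (Nat.card S).Prime ∨ IsBottomFactor p S

theorem IsBottomFactor.congr {p : ℕ} [Fact p.Prime] {S T : Type} [Group S] [Group T]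
    (e : S ≃* T) (h : IsBottomFactor p S) : IsBottomFactor p T :=
  (goodAt_bottom p).congr S T e h

/-- **The closure theorem** (from Parts II and III). -/
theorem closure_of (hS : StartW) (hW : WeakW) (p : ℕ) [Fact p.Prime] :
    ∀ (G : Type) [Group G] [Finite G] (N : Subgroup G) [N.Normal],
      HasFactors (IsCloseFactor p) N → OccursRegularly (G ⧸ N) (ZMod p) →
      OccursRegularly G (ZMod p) := by
  have hsim : ∀ (S : Type) [Group S], IsCloseFactor p S → IsSimpleGroup S := by
    intro S _ h
    rcases h with h | h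
    · have : Fact (Nat.card S).Prime := ⟨h⟩
      exact isSimpleGroup_of_prime_card rfl
    · exact h.isSimpleGroup
  have hiso : ∀ (S T : Type) [Group S] [Group T], (S ≃* T) → IsCloseFactor p S →
      IsCloseFactor p T := by
    intro S T _ _ e h
    rcases h with h | h
    · left
      rw [← Nat.card_congr e.toEquiv]
      exact h
    · exact Or.inr (IsBottomFactor.congr e h)
  suffices H : ∀ (m : ℕ) (G : Type) [Group G] [Finite G], Nat.card G = m →
      ∀ (N : Subgroup G) [N.Normal], HasFactors (IsCloseFactor p) N →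
      OccursRegularly (G ⧸ N) (ZMod p) → OccursRegularly G (ZMod p) from
    fun G _ _ N _ h h' => H _ G rfl N h h'
  intro m
  induction m using Nat.strong_induction_on with
  | _ m ih =>
    intro G _ _ hm N _ hN hG
    by_cases hNb : N = ⊥
    · subst hNb
      exact occReg_congr QuotientGroup.quotientBot hG
    · obtain ⟨M, hM, hMN, hM1, hmin, S, hSn, hSs, k, ⟨φ⟩⟩ := exists_min N hNb
      have hMF : HasFactors (IsCloseFactor p) M := by
        refine hN.of_injective hiso hsim M (Subgroup.inclusion hMN)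
          (Subgroup.inclusion_injective hMN) ?_
        constructor
        rintro _ ⟨x, rfl⟩ g
        exact ⟨⟨(g : G) * x * (g : G)⁻¹, hM.conj_mem x x.2 g⟩, rfl⟩
      have hSF : HasFactors (IsCloseFactor p) S := by
        refine hMF.of_injective hiso hsim S S.subtype S.subtype_injective ?_
        rw [Subgroup.range_subtype]
        exact hSn
      have h3 : IsCloseFactor p S := hSF.mem_of_isSimpleGroup hiso hsim
      -- the quotient by `M`
      have hNn : (N.map (QuotientGroup.mk' M)).Normal :=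
        Subgroup.Normal.map inferInstance _ (QuotientGroup.mk'_surjective M)
      have hNF : HasFactors (IsCloseFactor p) (N.map (QuotientGroup.mk' M)) := by
        refine hN.of_surjective hiso hsim _ ((QuotientGroup.mk' M).subgroupMap N) ?_
        exact (QuotientGroup.mk' M).subgroupMap_surjective N
      have hq : OccursRegularly ((G ⧸ M) ⧸ N.map (QuotientGroup.mk' M)) (ZMod p) :=
        occReg_congr (QuotientGroup.quotientQuotientEquivQuotient M N hMN).symm hG
      have hGM : OccursRegularly (G ⧸ M) (ZMod p) :=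
        ih (Nat.card (G ⧸ M)) (by rw [← hm]; exact card_quot_lt M hM1) (G ⧸ M) rfl
          (N.map (QuotientGroup.mk' M)) hNF hq
      have hker : (QuotientGroup.mk' M).ker = M := QuotientGroup.ker_mk' M
      have hbot : IsBottomFactor p S → OccursRegularly G (ZMod p) := by
        intro h4
        refine ((goodAt_bottom p).closure_regular.{0} M ?_ hGM).1 (ZMod p)
        exact (HasFactors.pow (goodAt_bottom p).congr (goodAt_bottom p).simple
          (hasFactors_of_mem (goodAt_bottom p).congr h4) k).congr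
          (goodAt_bottom p).congr (goodAt_bottom p).simple φ.symm
      rcases h3 with h3 | h3
      · obtain ⟨h1, h2⟩ := elem_of_pi φ h3 rfl
        have e1 : ∀ a ∈ (QuotientGroup.mk' M).ker, a ^ Nat.card S = 1 := by
          intro a ha
          rw [hker] at ha
          exact congrArg Subtype.val (h1 ⟨a, ha⟩)
        have e2 : ∀ a ∈ (QuotientGroup.mk' M).ker, ∀ b ∈ (QuotientGroup.mk' M).ker,
            a * b = b * a := by
          intro a ha b hb
          rw [hker] at ha hb
          exact congrArg Subtype.val (h2 ⟨a, ha⟩ ⟨b, hb⟩)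
        by_cases hℓ : Nat.card S = p
        · exact hbot (Or.inl (Or.inl hℓ))
        · exact closure_ab hS hW (QuotientGroup.mk' M) (QuotientGroup.mk'_surjective M)
            (Nat.card S) h3 hℓ e1 e2 hGM
      · exact hbot h3

end MP7K
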