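import Pool.Agent.Lib.MP_7f581e_K.F.LieC
import Pool.Agent.Lib.MP_7f581e_Z.Final

/-!
# C33: the closure theorem, final form
-/

set_option autoImplicit false
set_option linter.unusedSectionVars false

universe u

namespace MP7K

section

open MP7Z MP7Z.LG MP7fR MP7fC MP7fE TensorProduct MP7fS MP7fU LieGM

/-- The Lang torsor theorem for an endomorphism, without the invariant (S). -/
theorem l3RW (p : ℕ) [Fact p.Prime] (B : Type) [Ring B] [Finite B] [Algebra (ZMod p) B]
    (𝒢 : LangGp p B) (Φ : 𝒢.End) (e : ℕ) (hroot : Φ.Root e 1) (hL : Lang Φ)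
    (hLF : ∀ d, 0 < d → Lang (frEnd 𝒢 d)) (hperf : commutator Φ.pts = ⊤)
    (Q : Type) [Group Q] [Fintype Q] (ρ : Q →* (B ≃+* B)) (hρ : 𝒢.Stable ρ)
    (hc : Φ.Comm ρ) (ι : Type) [Fintype ι] [DecidableEq ι]
    (P : (MvPolynomial ι (ZMod p) ⊗[ZMod p] B)ˣ) (β : Q →* Matrix ι ι (ZMod p))
    (hW : Word 𝒢 ρ P β) (Ω : Type) [Field Ω] [Algebra (ZMod p) Ω] (x : Ω)
    (ψ : Gx p x →* Q) (hψ : Rz p x ψ) :
    ∃ Ψ : Gx p x →* Φ.pts ⋊[Φ.act ρ hρ hc] Q, Rz p x Ψ ∧ ∀ γ, (Ψ γ).right = ψ γ := by
  have : CharP Ω p := charP_of_injective_algebraMap (algebraMap (ZMod p) Ω).injective p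
  have : CharP (Cst p Ω) p :=
    charP_of_injective_algebraMap (algebraMap (ZMod p) (Cst p Ω)).injective p
  have : IsSepClosed Ω := hψ.stage.sepClosed
  have hsurj : Function.Surjective ψ := by
    intro q
    obtain ⟨γ, _, h⟩ := hψ.reg q
    exact ⟨γ, h⟩
  obtain ⟨g, hgH, hinv, hgi, hgi', hpl⟩ := lg_gelW p B 𝒢 Φ hLF Q ρ ι P β hW Ω x
    hψ.stage ψ hψ.fin hsurj
  obtain ⟨y, hyH, hy⟩ := hL Ω g hgH
  obtain ⟨hyi, hyi'⟩ := tIntW lie_int p B 𝒢 Φ e hroot Ω x g hgH y hyH hgi hgi' hy
  obtain ⟨Ψ, hΨf, hΨr, hΨy⟩ := tTorW p B 𝒢 Φ e hroot Q ρ hρ hc Ω x ψ g y hψ.fin hinv hgH hyH hy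
  refine ⟨Ψ, ⟨hψ.stage, hΨf, ?_⟩, hΨr⟩
  exact tTorOW lie_cong (tCongU lie_cong) lie_int (tCloW br_res) p B 𝒢 Φ e hroot Q ρ hρ hc Ω x ψ g
    y Ψ hψ.stage hψ.reg hperf hgH hyH hyi hyi' hy hΨr hΨy hpl

/-- Closure under extensions with kernel a power of a simple group of Lie type. -/
theorem occ_lieType {p : ℕ} [Fact p.Prime] (hS : SolvC p) :
    LieC p (fun S [Group S] => IsLieType p S) := by
  intro G _ _ E _ _ f hf S _ _ κ _ hSS hθ₀ hocc
  obtain ⟨hsim, D, π, hπ, hσ⟩ := hSS
  obtain ⟨θ⟩ := hθ₀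
  obtain ⟨Q, _, _, f₂, i, w, hf₂, hsolv, hfi, hconj⟩ :=
    tGrp D.Φ.pts S D.A D.solv D.perf (D.Φ.act D.α D.stab D.comm) π hπ hσ κ G E f hf θ
  obtain ⟨ψ₂, hψ₂⟩ := exists_rz (hS G Q f₂ hf₂ hsolv hocc)
  classical
  have : Fintype κ := Fintype.ofFinite κ
  have : Fintype Q := Fintype.ofFinite Q
  -- Lang's theorem
  have hL : Lang D.Φ := lg_langW p D.B D.H (Fin D.N) D.P D.closure D.Φ D.e 1 Nat.one_pos D.root
  have hLd : ∀ d, 0 < d → Lang (frEnd D.H d) := fun d hd =>
    lg_langW p D.B D.H (Fin D.N) D.P D.closure (frEnd D.H d) 1 d hd (frEnd_root D.H d)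
  -- the power
  obtain ⟨hA1, hA2, hA3, hA4⟩ := tPowA p D.B D.H D.Φ κ
  obtain ⟨hA5, hA6⟩ := hA4 D.A D.α
  have hW := word_comp (tPowW p D.B D.H D.A D.α (Fin D.N) D.P D.β (word_datum D) κ) w
  obtain ⟨hperf, ε, hε⟩ := tPowP p D.B D.H D.Φ κ D.perf
  have hst : (powG κ D.H).Stable (wrAct κ D.α) := hA5 D.stab
  have hcm : (powE κ D.Φ).Comm (wrAct κ D.α) := hA6 D.comm
  obtain ⟨Ψ, hΨ, hΨr⟩ := l3RW p (κ → D.B) (powG κ D.H) (powE κ D.Φ) D.e
    (hA3 D.e 1 D.root) (hA1 hL) (fun d hd => hA2 d (hLd d hd)) hperf Q ((wrAct κ D.α).comp w)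
    (stable_comp hst w) (comm_comp hcm w) (κ × Fin D.N) (powP κ D.P) ((wrMat κ D.β).comp w) hW
    (Om p) (xx p) ψ₂ hψ₂
  -- the homomorphism onto `E`
  let f₁ : (powE κ D.Φ).pts →* E :=
    { toFun := fun b => ((θ.symm fun k => π (ε b k) : f.ker) : E)
      map_one' := by
        have h : (fun k => π (ε 1 k)) = (1 : κ → S) := by
          funext k
          rw [map_one, Pi.one_apply, map_one, Pi.one_apply]
        rw [h, map_one]
        rfl
      map_mul' := by
        intro a b
        have h : (fun k => π (ε (a * b) k)) = (fun k => π (ε a k)) * fun k => π (ε b k) := by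
          funext k
          rw [map_mul, Pi.mul_apply, map_mul, Pi.mul_apply]
        rw [h, map_mul]
        rfl }
  have hact : ∀ (q : Q) (b : (powE κ D.Φ).pts),
      f₁ ((powE κ D.Φ).act ((wrAct κ D.α).comp w) (stable_comp hst w) (comm_comp hcm w) q b) =
        i q * f₁ b * (i q)⁻¹ := by
    intro q b
    rw [act_comp]
    change ((θ.symm fun k => π (ε ((powE κ D.Φ).act (wrAct κ D.α) hst hcm (w q) b) k) : f.ker) :
      E) = i q * ((θ.symm fun k => π (ε b k) : f.ker) : E) * (i q)⁻¹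
    rw [hconj q (ε b)]
    have h : (fun k => π (ε ((powE κ D.Φ).act (wrAct κ D.α) hst hcm (w q) b) k)) =
        fun k => π (D.Φ.act D.α D.stab D.comm ((w q).left k) (ε b ((w q).right.symm k))) := by
      funext k
      rw [hε D.A D.α D.stab D.comm hst hcm (w q) b k]
    rw [h]
  let F : (powE κ D.Φ).pts ⋊[(powE κ D.Φ).act ((wrAct κ D.α).comp w) (stable_comp hst w)
      (comm_comp hcm w)] Q →* E := SemidirectProduct.lift f₁ i (by
    intro q
    ext b
    exact hact q b)
  have hF : Function.Surjective F := by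
    intro a
    obtain ⟨q, hq⟩ := hf₂ (f a)
    have hk : a * (i q)⁻¹ ∈ f.ker := by
      rw [MonoidHom.mem_ker, map_mul, map_inv, hfi, hq, mul_inv_cancel]
    choose b hb using fun k => hπ (θ ⟨_, hk⟩ k)
    refine ⟨⟨ε.symm b, q⟩, ?_⟩
    change ((θ.symm fun k => π (ε (ε.symm b) k) : f.ker) : E) * i q = a
    have h : (fun k => π (ε (ε.symm b) k)) = θ ⟨_, hk⟩ := by
      funext k
      rw [MulEquiv.apply_symm_apply, hb]
    rw [h, MulEquiv.symm_apply_apply]
    exact inv_mul_cancel_right a (i q)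
  exact rz_reg (hΨ.map F hF)

end

open MP7Z MP7fR MP7fC MP7fE MP7fW MP7fY MP7fH

open SUJ in
/-- Closure, kernel of unitary type. -/
theorem occ_SU_one {p : ℕ} [Fact p.Prime] (hS : SolvC p) {m N : ℕ} {F : Type}
    [Field F] [CharP F p] [Finite F] [Algebra (ZMod p) F] (hm : 0 < m)
    (hcard : Nat.card F = p ^ (2 * m)) (h3 : 3 ≤ N) (hq : N = 3 → 2 < p ^ m)
    [IsSimpleGroup (PSG (sF p m F) (1 : Matrix (Fin N) (Fin N) F))]
    (hG : LangOf p (incJ (sF p m F) N)
      (AJ (s := sF p m F) (N := N) (sF_comm (p := p) (m := m))).subtype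
      (DJ (s := sF p m F) (N := N) (sF_comm (p := p) (m := m)))) :
    LieC p (fun S [Group S] =>
      Nonempty (S ≃* PSG (sF p m F) (1 : Matrix (Fin N) (Fin N) F))) := by
  obtain ⟨P, hP⟩ := exists_PJ (F := F) hm hcard N
  have : IsSimpleGroup (PSG (sF p m F) (Jm N F)) := (ptr hP).isSimpleGroup
  have h1 : LieC p (fun S [Group S] => Nonempty (S ≃* PSG (sF p m F) (Jm N F))) :=
    occ_of_type hS (typeD_SU (N := N) (sF p m F) (sF_sF (p := p) (m := m) hcard)
      (sF_ne' hm hcard) sF_comm h3 fun h => exists_t hm hcard (hq h)) hG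
  intro G _ _ E _ _ f hf S _ _ κ _ hSS hθ hocc
  obtain ⟨e⟩ := hSS
  exact h1 G E f hf S κ ⟨e.trans (ptr hP).symm⟩ hθ hocc

/-- **Closure, kernel of classical type.** -/
theorem occ_classical {p : ℕ} [Fact p.Prime] (hS : SolvC p) :
    LieC p (fun S [Group S] => IsClassical p S) := by
  have hA := langAll p
  intro G _ _ E _ _ f hf S _ _ κ _ hSS hθ hocc
  obtain ⟨hsim, H, _, hH, ⟨eS⟩⟩ := hSS
  have hS' : IsSimpleGroup (H ⧸ Subgroup.center H) := MulEquiv.isSimpleGroup eS.symm
  obtain ⟨F, _, n, m, ⟨hF, hn, hq, ⟨e⟩⟩ | ⟨hF, hn, hp, ⟨e⟩⟩ |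
    ⟨hF, hm, hn, hq, σ, hσ, ⟨e⟩⟩⟩ := hH
  · have := finite_of_card hF
    have := charP_of_card hF
    let _ : Algebra (ZMod p) F := ZMod.algebra F p
    rcases Nat.lt_or_ge 2 n with h3 | h3
    · exact occ_of_type hS (typeD_SLn (F := F) h3) (hA.sln F n h3) G E f hf S κ
        ⟨eS.trans (centerQuot e)⟩ hθ hocc
    · obtain rfl : n = 2 := le_antisymm h3 hn
      exact occ_of_type hS (typeD_SL2 (F := F) (by rw [hF]; exact hq rfl)) (hA.sl2 F)
        G E f hf S κ ⟨eS.trans (centerQuot e)⟩ hθ hocc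
  · have := finite_of_card hF
    have := charP_of_card hF
    let _ : Algebra (ZMod p) F := ZMod.algebra F p
    have e' : H ≃* MP7fP.Sp n F := e
    have h1 : IsSimpleGroup (MP7fP.PSp n F) := MulEquiv.isSimpleGroup (centerQuot e').symm
    exact occ_of_type hS (typeD_Sp (F := F) (p := p) hn (two_zero hn hp)) (hA.sp F n hn)
      G E f hf S κ ⟨eS.trans (centerQuot e')⟩ hθ hocc
  · have := finite_of_card hF
    have := charP_of_card hF
    let _ : Algebra (ZMod p) F := ZMod.algebra F p
    obtain rfl : σ = MP7fY.sF p m F := RingHom.ext fun x => (hσ x).trans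
      (MP7fY.sF_apply x).symm
    have e' : H ≃* MP7fY.SG (MP7fY.sF p m F) (1 : Matrix (Fin n) (Fin n) F) := e.trans suEquiv
    have h1 : IsSimpleGroup (MP7fY.PSG (MP7fY.sF p m F) (1 : Matrix (Fin n) (Fin n) F)) :=
      MulEquiv.isSimpleGroup (centerQuot e').symm
    exact occ_SU_one hS hm hF hn hq (hA.su F m n hm hF hn) G E f hf S κ
      ⟨eS.trans (centerQuot e')⟩ hθ hocc

/-- **Closure, kernel of orthogonal type.** -/
theorem occ_orthogonal {p : ℕ} [Fact p.Prime] (hS : SolvC p) :
    LieC p (fun S [Group S] => IsOrthogonal p S) := by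
  intro G _ _ E _ _ f hf S _ _ κ _ hSS hθ hocc
  obtain ⟨F, _, _, _, s, D, h3, h8, hsim, he⟩ :=
    Ort.exists_dat Ort.aOmS Ort.aClE Ort.aClO Ort.tAn8 hSS
  have hex := Ort.aHxe p F (s + 2) D
  have hT := Ort.aTyO p F s D hex hsim (Ort.aOAut p F (s + 2) D hex h3 h8 hsim)
  exact occ_of_type hS hT (Ort.aOLangX p F (s + 1) D) G E f hf S κ he hθ hocc

/-- The composition factors of the closure theorem: cyclic of prime order; at the bottom
(`IsBottomFactor`); classical, orthogonal, of Lie type in characteristic `p` (`IsCAll`). -/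
def IsFactorC (p : ℕ) [Fact p.Prime] (S : Type) [Group S] : Prop :=
  (Nat.card S).Prime ∨ IsBottomFactor p S ∨ IsCAll p S

/-- Induction over a chief series. -/
theorem closure_ind {p : ℕ} [Fact p.Prime] {𝒮 : GroupClass}
    (hiso : ∀ (S T : Type) [Group S] [Group T], (S ≃* T) → 𝒮 S → 𝒮 T)
    (hsim : ∀ (S : Type) [Group S], 𝒮 S → IsSimpleGroup S)
    (hstep : ∀ (E : Type) [Group E] [Finite E] (M : Subgroup E) [M.Normal] (S : Type) [Group S]
      [Finite S] (k : ℕ), 𝒮 S → (M ≃* (Fin k → S)) → OccursRegularly (E ⧸ M) (ZMod p) →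
      OccursRegularly E (ZMod p)) :
    ∀ (G : Type) [Group G] [Finite G] (N : Subgroup G) [N.Normal],
      HasFactors 𝒮 N → OccursRegularly (G ⧸ N) (ZMod p) → OccursRegularly G (ZMod p) := by
  suffices H : ∀ (m : ℕ) (G : Type) [Group G] [Finite G], Nat.card G = m →
      ∀ (N : Subgroup G) [N.Normal], HasFactors 𝒮 N →
      OccursRegularly (G ⧸ N) (ZMod p) → OccursRegularly G (ZMod p) from
    fun G _ _ N _ h h' => H _ G rfl N h h'
  intro m
  induction m using Nat.strong_induction_on with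
  | _ m ih =>
    intro G _ _ hm N _ hN hG
    by_cases hNb : N = ⊥
    · subst hNb
      exact occReg_congr QuotientGroup.quotientBot hG
    · obtain ⟨M, hM, hMN, hM1, -, S, hSn, hSs, k, ⟨φ⟩⟩ := exists_min N hNb
      have hMF : HasFactors 𝒮 M := by
        refine hN.of_injective hiso hsim M (Subgroup.inclusion hMN)
          (Subgroup.inclusion_injective hMN) ?_
        constructor
        rintro _ ⟨x, rfl⟩ g
        exact ⟨⟨(g : G) * x * (g : G)⁻¹, hM.conj_mem x x.2 g⟩, rfl⟩
      have hSF : HasFactors 𝒮 S := by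
        refine hMF.of_injective hiso hsim S S.subtype S.subtype_injective ?_
        rw [Subgroup.range_subtype]
        exact hSn
      have hNn : (N.map (QuotientGroup.mk' M)).Normal :=
        Subgroup.Normal.map inferInstance _ (QuotientGroup.mk'_surjective M)
      have hNF : HasFactors 𝒮 (N.map (QuotientGroup.mk' M)) := by
        refine hN.of_surjective hiso hsim _ ((QuotientGroup.mk' M).subgroupMap N) ?_
        exact (QuotientGroup.mk' M).subgroupMap_surjective N
      have hq : OccursRegularly ((G ⧸ M) ⧸ N.map (QuotientGroup.mk' M)) (ZMod p) :=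
        occReg_congr (QuotientGroup.quotientQuotientEquivQuotient M N hMN).symm hG
      exact hstep G M S k (hSF.mem_of_isSimpleGroup hiso hsim) φ
        (ih (Nat.card (G ⧸ M)) (by rw [← hm]; exact card_quot_lt M hM1) (G ⧸ M) rfl
          (N.map (QuotientGroup.mk' M)) hNF hq)

/-- A finite solvable group has composition factors of prime order. -/
theorem hasFactors_of_solvable : ∀ (m : ℕ) (G : Type) [Group G] [Finite G], Nat.card G = m →
    Group.IsSolvable G → HasFactors (fun S [Group S] => (Nat.card S).Prime) G := by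
  intro m
  induction m using Nat.strong_induction_on with
  | _ m ih =>
    intro G _ _ hm hs
    rcases subsingleton_or_nontrivial G with hsub | hnt
    · exact .triv G
    · obtain ⟨H, hH⟩ := (Set.toFinite {N : Subgroup G | N.Normal ∧ N ≠ ⊤}).exists_maximal
        ⟨⊥, inferInstance, bot_ne_top⟩
      have hHn : H.Normal := hH.prop.1
      have hHt : H ≠ ⊤ := hH.prop.2
      have hsq : Group.IsSolvable (G ⧸ H) :=
        solvable_of_surjective (f := QuotientGroup.mk' H) (QuotientGroup.mk'_surjective H)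
      have hntq : Nontrivial (G ⧸ H) := by
        by_contra h
        rw [not_nontrivial_iff_subsingleton] at h
        exact hHt (QuotientGroup.subgroup_eq_top_of_subsingleton H h)
      have hsim : IsSimpleGroup (G ⧸ H) := by
        refine ⟨fun K hK => ?_⟩
        have h1 : (K.comap (QuotientGroup.mk' H)).Normal := hK.comap _
        by_cases h2 : K.comap (QuotientGroup.mk' H) = ⊤
        · right
          rw [eq_top_iff]
          intro x _
          obtain ⟨g, rfl⟩ := QuotientGroup.mk'_surjective H x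
          have h3 : g ∈ K.comap (QuotientGroup.mk' H) := by
            rw [h2]
            exact Subgroup.mem_top g
          exact h3
        · left
          have h3 : H ≤ K.comap (QuotientGroup.mk' H) := by
            intro h hh
            rw [Subgroup.mem_comap]
            have h4 : (QuotientGroup.mk' H) h = 1 := (QuotientGroup.eq_one_iff h).2 hh
            rw [h4]
            exact one_mem K
          have h4 : K.comap (QuotientGroup.mk' H) ≤ H := hH.le_of_ge ⟨h1, h2⟩ h3
          rw [eq_bot_iff]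
          intro x hx
          obtain ⟨g, rfl⟩ := QuotientGroup.mk'_surjective H x
          rw [Subgroup.mem_bot]
          exact (QuotientGroup.eq_one_iff g).2 (h4 hx)
      have hcomm : ∀ a b : G ⧸ H, a * b = b * a := IsSimpleGroup.comm_iff_isSolvable.2 hsq
      have hpr : (Nat.card (G ⧸ H)).Prime := by
        let _ : CommGroup (G ⧸ H) :=
          { (inferInstance : Group (G ⧸ H)) with mul_comm := hcomm }
        exact IsSimpleGroup.prime_card
      refine .ext G H (ih (Nat.card H) ?_ H rfl ?_) hpr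
      · rw [← hm]
        exact lt_of_le_of_ne (Subgroup.card_le_card_group H) fun h =>
          hHt (Subgroup.eq_top_of_card_eq H h)
      · exact solvable_of_solvable_injective (f := H.subtype) H.subtype_injective

/-- A larger class. -/
theorem hasFactors_mono {𝒮 𝒯 : GroupClass} (h : ∀ (S : Type) [Group S], 𝒮 S → 𝒯 S) {G : Type}
    [Group G] (hG : HasFactors 𝒮 G) : HasFactors 𝒯 G := by
  induction hG with
  | triv G => exact .triv G
  | ext G H _ hq ih => exact .ext G H ih (h _ hq)

/-- **Closure, solvable kernel.** -/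
theorem closure_solv (hS : StartW) (hW : WeakW) (p : ℕ) [Fact p.Prime] : SolvC p := by
  intro G _ _ E _ _ f hf hs hocc
  have h1 : HasFactors (IsCloseFactor p) f.ker := by
    have h2 := hasFactors_of_solvable _ f.ker rfl hs
    exact hasFactors_mono (fun S _ h => Or.inl h) h2
  exact closure_of hS hW p E f.ker h1
    (occReg_congr (QuotientGroup.quotientKerEquivOfSurjective f hf).symm hocc)

theorem IsFactorC.isSimpleGroup {p : ℕ} [Fact p.Prime] {S : Type} [Group S]
    (h : IsFactorC p S) : IsSimpleGroup S := by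
  rcases h with h | h | h
  · have : Fact (Nat.card S).Prime := ⟨h⟩
    exact isSimpleGroup_of_prime_card rfl
  · exact h.isSimpleGroup
  · exact IsCAll.isSimpleGroup h

theorem IsFactorC.congr {p : ℕ} [Fact p.Prime] {S T : Type} [Group S] [Group T] (e : S ≃* T)
    (h : IsFactorC p S) : IsFactorC p T := by
  rcases h with h | h | h
  · left
    rw [← Nat.card_congr e.toEquiv]
    exact h
  · exact Or.inr (Or.inl (IsBottomFactor.congr e h))
  · exact Or.inr (Or.inr (IsCAll.congr e h))

/-- **The closure theorem** (from Parts II and III). -/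
theorem closure_full (hS : StartW) (hW : WeakW) (p : ℕ) [Fact p.Prime] (G : Type) [Group G]
    [Finite G] (N : Subgroup G) [N.Normal] (hN : HasFactors (IsFactorC p) N)
    (hG : OccursRegularly (G ⧸ N) (ZMod p)) : OccursRegularly G (ZMod p) := by
  have hSC := closure_solv hS hW p
  refine closure_ind (fun S T _ _ e h => h.congr e) (fun S _ h => h.isSimpleGroup) ?_ G N hN hG
  intro E _ _ M _ S _ _ k hS' φ hE
  have hmk := QuotientGroup.mk'_surjective M
  have φ' : (QuotientGroup.mk' M).ker ≃* (Fin k → S) :=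
    (MulEquiv.subgroupCongr (QuotientGroup.ker_mk' M)).trans φ
  have hclose : IsCloseFactor p S → OccursRegularly E (ZMod p) := by
    intro h4
    refine closure_of hS hW p E M ?_ hE
    have hiso : ∀ (S T : Type) [Group S] [Group T], (S ≃* T) → IsCloseFactor p S →
        IsCloseFactor p T := by
      intro S T _ _ e h
      rcases h with h | h
      · left
        rw [← Nat.card_congr e.toEquiv]
        exact h
      · exact Or.inr (IsBottomFactor.congr e h)
    have hsim : ∀ (S : Type) [Group S], IsCloseFactor p S → IsSimpleGroup S := by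
      intro S _ h
      rcases h with h | h
      · have : Fact (Nat.card S).Prime := ⟨h⟩
        exact isSimpleGroup_of_prime_card rfl
      · exact h.isSimpleGroup
    exact (HasFactors.pow hiso hsim (hasFactors_of_mem hiso h4) k).congr hiso hsim φ.symm
  rcases hS' with h | h | h | h | h | h
  · exact hclose (Or.inl h)
  · exact hclose (Or.inr h)
  · exact occ_classical hSC (E ⧸ M) E (QuotientGroup.mk' M) hmk S (Fin k) h ⟨φ'⟩ hE
  · exact occ_orthogonal hSC (E ⧸ M) E (QuotientGroup.mk' M) hmk S (Fin k) h ⟨φ'⟩ hE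
  · exact occ_lieType hSC (E ⧸ M) E (QuotientGroup.mk' M) hmk S (Fin k) h.isLieType ⟨φ'⟩ hE
  · obtain ⟨n, h5, -, h6, he⟩ := h
    exact hclose (Or.inr (Or.inl (Or.inr (Or.inl ⟨n, h5, fun h => absurd h h6, he⟩))))

end MP7K
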