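import Pool.Agent.Lib.MP_7f581e_K.F.Close
import Pool.Agent.Lib.MP_7f581e_Z.Ort.Main

/-!
# C33, Part IV, second version: closure under extensions with kernel of Lie type

The proofs of the steps `LieStep` of `MP_7f581e_Z`, without the invariant (S): embedding problems
with solvable kernel are solved by the closure theorem.
-/

set_option autoImplicit false

universe u

namespace MP7K

open MP7Z MP7fR MP7fC MP7fE MP7fW MP7fY TensorProduct MP7fS

section

variable {p : ℕ} [Fact p.Prime] {Ω : Type} [Field Ω] [Algebra (ZMod p) Ω] {x : Ω}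

/-- Realizations pass to quotients. -/
theorem _root_.MP7K.Rz.map {G H : Type} [Group G] [Group H] {ψ : Gx p x →* G} (h : Rz p x ψ)
    (f : G →* H) (hf : Function.Surjective f) : Rz p x (f.comp ψ) where
  stage := h.stage
  fin := by
    obtain ⟨S, hS⟩ := h.fin
    exact ⟨S, fun γ hγ => by rw [MonoidHom.comp_apply, hS γ hγ, map_one]⟩
  reg := by
    intro a
    obtain ⟨g, rfl⟩ := hf a
    obtain ⟨γ, h1, rfl⟩ := h.reg g
    exact ⟨γ, h1, rfl⟩

/-- **A realization in the homomorphism language is regular.** -/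
theorem rz_reg {G : Type} [Group G] {ψ : Gx p x →* G} (hψ : Rz p x ψ) :
    OccursRegularly G (ZMod p) := by
  have hst := hψ.stage
  have := hst.sepClosed
  let _ : Algebra (RatFunc (ZMod p)) Ω := (emb hst.transc).toAlgebra
  have hgal : IsGalois (RatFunc (ZMod p)) Ω := isGalois_emb hst
  have hX : algebraMap (RatFunc (ZMod p)) Ω RatFunc.X = x := emb_X hst.transc
  have hC : ∀ c : ZMod p, algebraMap (RatFunc (ZMod p)) Ω
      (algebraMap (ZMod p) (RatFunc (ZMod p)) c) = algebraMap (ZMod p) Ω c :=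
    fun c => emb_C hst.transc c
  -- the two Galois groups
  let toA : (Ω ≃ₐ[RatFunc (ZMod p)] Ω) → (Ω ≃ₐ[ZMod p] Ω) := fun γ =>
    AlgEquiv.ofRingEquiv (f := γ.toRingEquiv) (by
      intro c
      rw [← hC]
      exact γ.commutes _)
  let toG : (Ω ≃ₐ[RatFunc (ZMod p)] Ω) →* Gx p x :=
    { toFun := fun γ => ⟨toA γ, by
        rw [mem_Gx, ← hX]
        exact γ.commutes _⟩
      map_one' := Subtype.ext (AlgEquiv.ext fun _ => rfl)
      map_mul' := fun a b => Subtype.ext (AlgEquiv.ext fun _ => rfl) }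
  have htoG : ∀ (γ : Ω ≃ₐ[RatFunc (ZMod p)] Ω) (z : Ω), (toG γ : Ω ≃ₐ[ZMod p] Ω) z = γ z :=
    fun _ _ => rfl
  have hsurj : Function.Surjective toG := by
    intro γ
    let f : Ω ≃+* Ω := (γ : Ω ≃ₐ[ZMod p] Ω).toRingEquiv
    have hf : ∀ r : RatFunc (ZMod p), f (algebraMap (RatFunc (ZMod p)) Ω r) =
        algebraMap (RatFunc (ZMod p)) Ω r := by
      intro r
      have h1 : (f : Ω →+* Ω).comp (algebraMap (RatFunc (ZMod p)) Ω) =
          algebraMap (RatFunc (ZMod p)) Ω := by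
        apply IsFractionRing.ringHom_ext (A := Polynomial (ZMod p))
        intro P
        have h2 : ((f : Ω →+* Ω).comp (algebraMap (RatFunc (ZMod p)) Ω)).comp
            (algebraMap (Polynomial (ZMod p)) (RatFunc (ZMod p))) =
            (algebraMap (RatFunc (ZMod p)) Ω).comp
              (algebraMap (Polynomial (ZMod p)) (RatFunc (ZMod p))) := by
          apply Polynomial.ringHom_ext
          · intro c
            have h3 : algebraMap (Polynomial (ZMod p)) (RatFunc (ZMod p)) (Polynomial.C c) =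
                algebraMap (ZMod p) (RatFunc (ZMod p)) c := rfl
            change (γ : Ω ≃ₐ[ZMod p] Ω) (algebraMap (RatFunc (ZMod p)) Ω
              (algebraMap (Polynomial (ZMod p)) (RatFunc (ZMod p)) (Polynomial.C c))) =
              algebraMap (RatFunc (ZMod p)) Ω
                (algebraMap (Polynomial (ZMod p)) (RatFunc (ZMod p)) (Polynomial.C c))
            rw [h3, hC]
            exact (γ : Ω ≃ₐ[ZMod p] Ω).commutes c
          · change (γ : Ω ≃ₐ[ZMod p] Ω) (algebraMap (RatFunc (ZMod p)) Ω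
              (algebraMap (Polynomial (ZMod p)) (RatFunc (ZMod p)) Polynomial.X)) =
              algebraMap (RatFunc (ZMod p)) Ω
                (algebraMap (Polynomial (ZMod p)) (RatFunc (ZMod p)) Polynomial.X)
            rw [RatFunc.algebraMap_X, hX]
            exact mem_Gx.1 γ.2
        exact congrArg (fun g : Polynomial (ZMod p) →+* Ω => g P) h2
      exact congrArg (fun g : RatFunc (ZMod p) →+* Ω => g r) h1
    refine ⟨AlgEquiv.ofRingEquiv (f := f) hf, ?_⟩
    exact Subtype.ext (AlgEquiv.ext fun _ => rfl)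
  obtain ⟨S, hS⟩ := hψ.fin
  have hψs : Function.Surjective ψ := by
    intro g
    obtain ⟨γ, -, h⟩ := hψ.reg g
    exact ⟨γ, h⟩
  obtain ⟨L, hfd, hLg, hiso, hfix⟩ := reg_gal (ψ.comp toG) (hψs.comp hsurj) S
    (fun γ hγ => hS (toG γ) hγ)
  refine ⟨L, inferInstance, inferInstance, hfd, hLg, hiso, ?_⟩
  rintro y ⟨f, hf0, hf⟩
  -- `y` is a constant of `Ω`
  have halg : IsAlgebraic (ZMod p) (y : Ω) := by
    refine ⟨f, hf0, ?_⟩
    have h1 := congrArg (algebraMap L Ω) hf
    rw [map_zero, Polynomial.hom_eval₂] at h1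
    have h2 : (algebraMap L Ω).comp ((algebraMap (RatFunc (ZMod p)) L).comp
        (algebraMap (ZMod p) (RatFunc (ZMod p)))) = algebraMap (ZMod p) Ω := RingHom.ext hC
    rw [h2] at h1
    exact h1
  have hcst : (y : Ω) ∈ Cst p Ω := mem_algebraicClosure_iff.2 halg
  -- `y` is fixed by the Galois group
  have hall : ∀ γ : Ω ≃ₐ[RatFunc (ZMod p)] Ω, γ (y : Ω) = y := by
    intro γ
    obtain ⟨γ₁, h1, h2⟩ := hψ.reg (ψ (toG γ))
    obtain ⟨γ₂, rfl⟩ := hsurj γ₁
    have h3 : (ψ.comp toG) (γ₂⁻¹ * γ) = 1 := by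
      rw [MonoidHom.comp_apply, map_mul, map_inv, map_mul, map_inv, h2, inv_mul_cancel]
    have h4 := hfix _ h3 y y.2
    have h5 : γ₂ (y : Ω) = y := h1 y hcst
    calc γ (y : Ω) = γ₂ ((γ₂⁻¹ * γ) (y : Ω)) := by
          rw [AlgEquiv.mul_apply, ← AlgEquiv.mul_apply γ₂ γ₂⁻¹, mul_inv_cancel, AlgEquiv.one_apply]
      _ = y := by rw [h4, h5]
  obtain ⟨r, hr⟩ := (InfiniteGalois.mem_range_algebraMap_iff_fixed (y : Ω)).2 hall
  -- `r` is algebraic over the prime field
  have hr2 : ∃ c, r = RatFunc.C c := by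
    by_contra hcon
    have htr : Transcendental (ZMod p) r := RatFunc.transcendental_of_ne_C _ hcon
    apply htr
    refine ⟨f, hf0, ?_⟩
    apply (algebraMap (RatFunc (ZMod p)) Ω).injective
    have h1 := congrArg (algebraMap L Ω) hf
    rw [map_zero, Polynomial.hom_eval₂] at h1
    rw [map_zero, Polynomial.aeval_def, Polynomial.hom_eval₂, hr]
    exact h1
  obtain ⟨c, rfl⟩ := hr2
  refine ⟨c, ?_⟩
  apply (algebraMap L Ω).injective
  exact hr

end

/-- The Lang torsor theorem, without the invariant (S). -/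
theorem l3R (p : ℕ) [Fact p.Prime] (B : Type) [Ring B] [Finite B] [Algebra (ZMod p) B]
    (𝒢 : LangGp p B) (Q : Type) [Group Q] [Fintype Q] (ρ : Q →* (B ≃+* B))
    (hρ : 𝒢.Stable ρ) (m₀ : ℕ) (ι : Type) (Z : ι → Submodule (ZMod p) B) (hm₀ : 0 < m₀)
    (hL1 : 𝒢.Lang1) (hLM : 𝒢.LangM m₀) (hGen : 𝒢.Gen m₀ Z)
    (hZ : ∀ i, ∀ q : Q, ∀ b ∈ Z i, ρ q b ∈ Z i) (hPar : ∀ i, 𝒢.Par ρ (Z i))
    (hperf : commutator 𝒢.pts = ⊤) (Ω : Type) [Field Ω] [Algebra (ZMod p) Ω] (x : Ω)
    (ψ : Gx p x →* Q) (hψ : Rz p x ψ) :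
    ∃ Ψ : Gx p x →* 𝒢.pts ⋊[𝒢.act ρ hρ] Q, Rz p x Ψ ∧ ∀ γ, (Ψ γ).right = ψ γ := by
  haveI : CharP Ω p := charP_of_injective_algebraMap (algebraMap (ZMod p) Ω).injective p
  haveI : CharP (Cst p Ω) p :=
    charP_of_injective_algebraMap (algebraMap (ZMod p) (Cst p Ω)).injective p
  haveI : IsSepClosed Ω := hψ.stage.sepClosed
  have hsurj : Function.Surjective ψ := by
    intro q
    obtain ⟨γ, _, h⟩ := hψ.reg q
    exact ⟨γ, h⟩
  obtain ⟨g, hgH, hinv, hgi, hgi', hpl⟩ := lie_gel p B 𝒢 Q ρ m₀ ι Z hm₀ hLM hGen hZ hPar Ω x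
    hψ.stage ψ hψ.fin hsurj
  obtain ⟨y, hyH, hy⟩ := hL1 Ω g hgH
  obtain ⟨hyi, hyi'⟩ := (lie_int p B Ω x).2.2.2.2.2 g y hgi hgi' hy
  obtain ⟨Ψ, hΨf, hΨr, hΨy⟩ := tTor p B 𝒢 Q ρ hρ Ω x ψ g y hψ.fin hinv hyH hy
  refine ⟨Ψ, ⟨hψ.stage, hΨf, ?_⟩, hΨr⟩
  exact tTorO lie_cong (tCongU lie_cong) lie_int (tClo br_res) p B 𝒢 Q ρ hρ Ω x ψ g y Ψ hψ.stage
    hψ.reg hperf hyH hyi hyi' hy hΨr hΨy hpl

/-- Closure under extensions with solvable kernel. -/
def SolvC (p : ℕ) [Fact p.Prime] : Prop :=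
  ∀ (G : Type) [Group G] [Finite G] (E : Type) [Group E] [Finite E] (f : E →* G),
    Function.Surjective f → Group.IsSolvable f.ker → OccursRegularly G (ZMod p) →
    OccursRegularly E (ZMod p)

/-- Closure under extensions with kernel a power of a member of the class. -/
def LieC (p : ℕ) [Fact p.Prime] (𝒮 : GroupClass) : Prop :=
  ∀ (G : Type) [Group G] [Finite G] (E : Type) [Group E] [Finite E] (f : E →* G),
    Function.Surjective f → ∀ (S : Type) [Group S] [Finite S] (κ : Type) [Finite κ], 𝒮 S →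
    Nonempty (f.ker ≃* (κ → S)) → OccursRegularly G (ZMod p) → OccursRegularly E (ZMod p)

section

variable {p : ℕ} [Fact p.Prime] {H B A : Type} [Group H] [Ring B] [Finite B]
  [Algebra (ZMod p) B] [Group A] {inc : H →* B} {hinj : Function.Injective inc}
  {r : A →* RingAut B} {hex : ∀ x h, ∃ h', inc h' = r x (inc h)} {D : Subgroup A}

/-- **Closure from a type.** -/
theorem occ_of_type (hS : SolvC p) (hT : TypeD inc hinj r hex D)
    (hG : LangOf p inc r D) :
    LieC p (fun S [Group S] => Nonempty (S ≃* H ⧸ Subgroup.center H)) := by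
  intro G _ _ E _ _ f hf S _ _ κ _ hSS hθ₀ hocc
  obtain ⟨eS⟩ := hSS
  obtain ⟨θ₀⟩ := hθ₀
  have hsim := hT.simple
  have hnt : Nontrivial (H ⧸ Subgroup.center H) := hsim.toNontrivial
  let θ : f.ker ≃* (κ → H ⧸ Subgroup.center H) := θ₀.trans (MulEquiv.piCongrRight fun _ => eS)
  let c := cQ inc hinj r hex
  have hexQ : ∀ e : E, ∃ (π : Equiv.Perm κ) (x : κ → A), Wr c (Psi f.ker θ e) π x :=
    fun e => exists_wrS hT.sur hT.cent (Psi f.ker θ e)
  have huni : ∀ x y : A, (∀ t, c x t = c y t) → x = y := cQ_injective hT.fix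
  -- the subgroup of the standard elements
  let E₂ : Subgroup E :=
    { carrier := {e | ∃ (π : Equiv.Perm κ) (x : κ → A), Wr c (Psi f.ker θ e) π x ∧
        ∀ k, x k ∈ D}
      one_mem' := ⟨1, fun _ => 1, by
        rw [map_one]
        exact Wr.one, fun _ => D.one_mem⟩
      mul_mem' := by
        rintro e e' ⟨π, x, h, hx⟩ ⟨π', x', h', hx'⟩
        refine ⟨π * π', fun k => x (π' k) * x' k, ?_, fun k => D.mul_mem (hx _) (hx' _)⟩
        rw [map_mul]
        exact h.mul h'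
      inv_mem' := by
        rintro e ⟨π, x, h, hx⟩
        refine ⟨π⁻¹, fun k => (x (π⁻¹ k))⁻¹, ?_, fun k => D.inv_mem (hx _)⟩
        rw [map_inv]
        exact h.inv }
  have hE₂ : ∀ e, e ∈ E₂ ↔ ∃ (π : Equiv.Perm κ) (x : κ → A), Wr c (Psi f.ker θ e) π x ∧
      ∀ k, x k ∈ D := fun e => Iff.rfl
  have hsup : ∀ e : E, ∃ y, nn f.ker θ y * e ∈ E₂ := by
    intro e
    obtain ⟨π, x, h⟩ := hexQ e
    choose s y hyD hy using fun k => hT.std (x k)
    refine ⟨fun i => s (π.symm i), π, y, ?_, hyD⟩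
    intro z k
    rw [map_mul, MulAut.mul_apply, Psi_nn]
    change s (π.symm (π k)) * Psi f.ker θ e z (π k) * (s (π.symm (π k)))⁻¹ = _
    rw [h, Equiv.symm_apply_apply, ← hy]
  -- the kernel is solvable
  let f₂ : E₂ →* G := f.comp E₂.subtype
  have hf₂ : Function.Surjective f₂ := by
    intro g
    obtain ⟨e, rfl⟩ := hf g
    obtain ⟨y, hy⟩ := hsup e
    refine ⟨⟨_, hy⟩, ?_⟩
    change f (nn f.ker θ y * e) = f e
    have h1 : f (nn f.ker θ y) = 1 := MonoidHom.mem_ker.1 (nn_mem f.ker θ y)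
    rw [map_mul, h1, one_mul]
  have hsolv : Group.IsSolvable f₂.ker := by
    obtain ⟨T, hTs, hT'⟩ := hT.solv
    have hmem : ∀ e : f₂.ker, ((e : E₂) : E) ∈ f.ker := fun e => MonoidHom.mem_ker.1 e.2
    have key : ∀ (e : f₂.ker) (k : κ), θ ⟨((e : E₂) : E), hmem e⟩ k ∈ T := by
      intro e k
      obtain ⟨π, x, h, hx⟩ := (hE₂ _).1 (e : E₂).2
      obtain ⟨s, hs⟩ := nn_surj f.ker θ (hmem e)
      have hse : θ ⟨((e : E₂) : E), hmem e⟩ = s := by
        apply nn_inj f.ker θ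
        rw [hs]
        change ((θ.symm (θ ⟨((e : E₂) : E), hmem e⟩) : f.ker) : E) = _
        rw [MulEquiv.symm_apply_apply]
      rw [hse]
      rw [← hs] at h
      classical
      have h1 : ∀ (z : κ → H ⧸ Subgroup.center H) (k : κ),
          s (π k) * z (π k) * (s (π k))⁻¹ = c (x k) (z k) := by
        intro z k
        have h2 := h z k
        rw [Psi_nn] at h2
        exact h2
      have hπ : ∀ k, π k = k := by
        intro k
        by_contra hne
        obtain ⟨t, ht⟩ := exists_ne (1 : H ⧸ Subgroup.center H)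
        have h2 := h1 (Pi.mulSingle (π k) t) k
        rw [Pi.mulSingle_eq_same, Pi.mulSingle_eq_of_ne (Ne.symm hne), map_one] at h2
        apply ht
        rw [mul_inv_eq_one] at h2
        exact mul_eq_left.mp h2
      refine hT' _ ⟨x k, hx k, ?_⟩
      intro t
      have h3 := h1 (fun _ => t) k
      rw [hπ k] at h3
      exact h3.symm
    let φ : κ → (f₂.ker →* T) := fun k =>
      { toFun := fun e => ⟨θ ⟨((e : E₂) : E), hmem e⟩ k, key e k⟩
        map_one' := by
          apply Subtype.ext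
          change θ ⟨(((1 : f₂.ker) : E₂) : E), hmem 1⟩ k = 1
          have h1 : (⟨(((1 : f₂.ker) : E₂) : E), hmem 1⟩ : f.ker) = 1 := rfl
          rw [h1, map_one]
          rfl
        map_mul' := by
          intro a b
          apply Subtype.ext
          change θ ⟨(((a * b : f₂.ker) : E₂) : E), hmem (a * b)⟩ k = _
          have h1 : (⟨(((a * b : f₂.ker) : E₂) : E), hmem (a * b)⟩ : f.ker) =
            ⟨((a : E₂) : E), hmem a⟩ * ⟨((b : E₂) : E), hmem b⟩ := rfl
          rw [h1, map_mul]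
          rfl }
    refine solvable_of_homs hTs φ ?_
    intro e he
    have h1 : θ ⟨((e : E₂) : E), hmem e⟩ = 1 := by
      funext k
      exact congrArg Subtype.val (he k)
    have h2 : (⟨((e : E₂) : E), hmem e⟩ : f.ker) = 1 := by
      apply θ.injective
      rw [h1, map_one]
    have h3 : ((e : E₂) : E) = 1 := congrArg (fun z : f.ker => (z : E)) h2
    exact Subtype.ext (Subtype.ext h3)
  -- the solution for the standard subgroup
  obtain ⟨ψ₂, hψ₂⟩ := exists_rz (hS G E₂ f₂ hf₂ hsolv hocc)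
  -- the action
  obtain ⟨𝒢, hpts, hL1, hQ⟩ := hG κ
  let ρ : E₂ →* ((κ → B) ≃+* (κ → B)) :=
    (rhoQ (c := c) (Ψ := Psi f.ker θ) hexQ huni r).comp E₂.subtype
  have hform : ∀ (e : E₂) (b : κ → B) (k : κ),
      ρ e b (pQ hexQ (e : E) k) = r (xQ hexQ (e : E) k) (b k) :=
    fun e b k => rhoQ_apply hexQ huni r (e : E) b k
  have hxD : ∀ (e : E₂) (k : κ), xQ hexQ (e : E) k ∈ D := by
    intro e k
    obtain ⟨π, x, h, hx⟩ := (hE₂ _).1 e.2
    have h1 := (wr_unique huni (wrQ hexQ (e : E)) h).2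
    rw [h1]
    exact hx k
  have : Fintype E₂ := Fintype.ofFinite E₂
  obtain ⟨hst, m₀, ι, Z, hm₀, hLM, hGen, hZ, hPar⟩ := hQ E₂ ρ fun e =>
    ⟨pQ hexQ (e : E), xQ hexQ (e : E), hxD e, hform e⟩
  obtain ⟨eb, heb⟩ := exists_hb hinj hpts
  have hperf : commutator 𝒢.pts = ⊤ := by
    have h1 : commutator (κ → H) = ⊤ := perfect_pi hT.perf
    rw [eq_top_iff]
    intro b _
    have h2 : eb b ∈ commutator (κ → H) := by
      rw [h1]
      exact Subgroup.mem_top _
    have h3 : (commutator (κ → H)).map eb.symm.toMonoidHom ≤ commutator 𝒢.pts := by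
      rw [commutator_def, commutator_def, Subgroup.map_commutator]
      exact Subgroup.commutator_mono le_top le_top
    have h4 := h3 ⟨eb b, h2, rfl⟩
    have h5 : eb.symm.toMonoidHom (eb b) = b := eb.symm_apply_apply b
    rw [h5] at h4
    exact h4
  obtain ⟨Ψ₃, hΨ₃, -⟩ := l3R p (κ → B) 𝒢 E₂ ρ hst m₀ ι Z hm₀ hL1 hLM hGen hZ hPar hperf (Om p)
    (xx p) ψ₂ hψ₂
  -- the homomorphism onto `E`
  let f₁ : 𝒢.pts →* E := (nn f.ker θ).comp ((mkk κ H).comp eb.toMonoidHom)
  have hact : ∀ (e : E₂) (b : 𝒢.pts), f₁ (𝒢.act ρ hst e b) = (e : E) * f₁ b * (e : E)⁻¹ := by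
    intro e b
    change nn f.ker θ (mkk κ H (eb (𝒢.act ρ hst e b))) =
      (e : E) * nn f.ker θ (mkk κ H (eb b)) * (e : E)⁻¹
    rw [← nn_psi]
    congr 1
    funext i
    obtain ⟨k, rfl⟩ := (pQ hexQ (e : E)).surjective i
    rw [wrQ hexQ (e : E) (mkk κ H (eb b)) k]
    symm
    apply cQ_mk'
    rw [heb, heb]
    exact hform e ((b : (κ → B)ˣ) : κ → B) k
  let F : 𝒢.pts ⋊[𝒢.act ρ hst] E₂ →* E := SemidirectProduct.lift f₁ E₂.subtype (by
    intro e
    ext b
    exact hact e b)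
  have hF : Function.Surjective F := by
    intro e
    obtain ⟨y, hy⟩ := hsup e
    obtain ⟨h, hh⟩ := mkk_surj κ H y⁻¹
    refine ⟨⟨eb.symm h, ⟨_, hy⟩⟩, ?_⟩
    change nn f.ker θ (mkk κ H (eb (eb.symm h))) * (nn f.ker θ y * e) = e
    rw [MulEquiv.apply_symm_apply, hh, map_inv, inv_mul_cancel_left]
  exact rz_reg (hΨ₃.map F hF)

end

end MP7K
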