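import Pool.Agent.Lib.MP_7f581e_K.L.Main
import Pool.Agent.Lib.MP_7f581e_K.F.Final

/-!
# C33 (MP_7f581e_nt): the closure theorem, without hypotheses
-/

set_option autoImplicit false

namespace MP7K

/-- Extensions of regularly occurring groups by finite solvable groups occur regularly. -/
theorem solvC (p : ℕ) [Fact p.Prime] : SolvC p := closure_solv k2StartW weakW p

/-- **The closure theorem.** -/
theorem closure_main (p : ℕ) [Fact p.Prime] (G : Type) [Group G] [Finite G] (N : Subgroup G)
    [N.Normal] (hN : MP7fC.HasFactors (IsFactorC p) N)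
    (hG : MP7fR.OccursRegularly (G ⧸ N) (ZMod p)) : MP7fR.OccursRegularly G (ZMod p) :=
  closure_full k2StartW weakW p G N hN hG

end MP7K
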